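import Pool.Agent.Y987.SZ.FormsU

set_option autoImplicit false

/-!
# Every admissible pattern between consecutive odd squares, for almost primes
-/

namespace Pool.Agent.Results.MP_5f6ee5_nt.PatternsInEveryInterval

/-- no prime divides one of the numbers `x + g i` for every `x` -/
def Admissible {r : ℕ} (g : Fin r → ℕ) : Prop :=
  ∀ p : ℕ, p.Prime → ∃ x : ℕ, ∀ i, ¬ p ∣ x + g i

/-- The translations: the `n` with `(2 k - 1)² < n ≤ (2 k - 1)² + 4 k` for which none of the numbers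
`n + g i` has a prime factor `≤ (4 k) ^ κ`. -/
def Translations {r : ℕ} (k : ℕ) (g : Fin r → ℕ) (κ : ℝ) : Set ℕ :=
  {n | (2 * k - 1) ^ 2 < n ∧ n ≤ (2 * k - 1) ^ 2 + 4 * k ∧
    ∀ i, ∀ p : ℕ, p.Prime → p ∣ n + g i → ((4 * k : ℕ) : ℝ) ^ κ < p}

/-- `n` is a term of a progression of `t` terms of `S` with a difference `d`, `1 ≤ d ≤ L`. -/
def InProgression (t : ℕ) (L : ℝ) (S : Set ℕ) (n : ℕ) : Prop :=
  ∃ a d : ℕ, 1 ≤ d ∧ (d : ℝ) ≤ L ∧ (∀ j < t, a + j * d ∈ S) ∧ ∃ j < t, n = a + j * d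

open Finset Filter
open Pool.Agent.Y987.SZ

lemma adm {r : ℕ} (k : ℕ) (g : Fin r → ℕ) (hg : Admissible g) : ∀ p : ℕ, p.Prime → p ≤ r →
    ∃ n : ℕ, ∀ i, ¬ (p : ℤ) ∣ 1 * n + (((2 * k - 1) ^ 2 + g i : ℕ) : ℤ) := by
  intro p hp _
  obtain ⟨x, hx⟩ := hg p hp
  refine ⟨x + (p - 1) * (2 * k - 1) ^ 2, ?_⟩
  intro i hd
  apply hx i
  have hp1 := hp.one_lt
  obtain ⟨q, hq⟩ : ∃ q, p = q + 1 := ⟨p - 1, by omega⟩
  have e : (1 * ((x + (p - 1) * (2 * k - 1) ^ 2 : ℕ) : ℤ) + (((2 * k - 1) ^ 2 + g i : ℕ) : ℤ)) =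
      (((x + g i) + p * (2 * k - 1) ^ 2 : ℕ) : ℤ) := by
    have : x + (p - 1) * (2 * k - 1) ^ 2 + ((2 * k - 1) ^ 2 + g i) =
        (x + g i) + p * (2 * k - 1) ^ 2 := by
      have h1 : p - 1 = q := by omega
      rw [h1, hq]
      ring
    rw [← this]
    push_cast
    ring
  rw [e] at hd
  have h2 : p ∣ (x + g i) + p * (2 * k - 1) ^ 2 := by exact_mod_cast hd
  exact (Nat.dvd_add_left (dvd_mul_right _ _)).1 h2

lemma image_eq {r : ℕ} (k : ℕ) (g : Fin r → ℕ) (κ : ℝ) :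
    Translations k g κ = (fun m => (2 * k - 1) ^ 2 + m) ''
      RU (fun _ : Fin r => 1) (fun i => (((2 * k - 1) ^ 2 + g i : ℕ) : ℤ)) (4 * k)
        (((4 * k : ℕ) : ℝ) ^ κ) := by
  have hdiv : ∀ m : ℕ, ∀ i, ∀ p : ℕ, (p : ℤ) ∣ 1 * (m : ℤ) + (((2 * k - 1) ^ 2 + g i : ℕ) : ℤ) ↔
      p ∣ (2 * k - 1) ^ 2 + m + g i := by
    intro m i p
    have : (1 * (m : ℤ) + (((2 * k - 1) ^ 2 + g i : ℕ) : ℤ)) =
        (((2 * k - 1) ^ 2 + m + g i : ℕ) : ℤ) := by
      have : (2 * k - 1) ^ 2 + m + g i = m + ((2 * k - 1) ^ 2 + g i) := by ring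
      rw [this, Nat.cast_add m]
      ring
    rw [this]
    exact Int.natCast_dvd_natCast
  ext n
  constructor
  · rintro ⟨h1, h2, h3⟩
    refine ⟨n - (2 * k - 1) ^ 2, ⟨by omega, by omega, ?_⟩, ?_⟩
    · intro p hp hpy i hd
      have h4 := (hdiv _ i p).1 hd
      have h5 : (2 * k - 1) ^ 2 + (n - (2 * k - 1) ^ 2) + g i = n + g i := by omega
      rw [h5] at h4
      have := h3 i p hp h4
      linarith
    · show (2 * k - 1) ^ 2 + (n - (2 * k - 1) ^ 2) = n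
      omega
  · rintro ⟨m, ⟨h1, h2, h3⟩, rfl⟩
    refine ⟨?_, ?_, ?_⟩
    · show (2 * k - 1) ^ 2 < (2 * k - 1) ^ 2 + m
      omega
    · show (2 * k - 1) ^ 2 + m ≤ (2 * k - 1) ^ 2 + 4 * k
      omega
    · intro i p hp hd
      by_contra hcon
      push Not at hcon
      exact h3 p hp hcon i ((hdiv m i p).2 hd)

/-- **Every admissible pattern between consecutive odd squares, for almost primes.** -/
theorem result (r : ℕ) : ∃ (κ c : ℝ) (R : ℕ), 0 < κ ∧ 0 < c ∧ ∀ (t : ℕ) (ε : ℝ), 0 < ε →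
    ∃ B k₀ : ℕ, ∀ k : ℕ, k₀ ≤ k → ∀ g : Fin r → ℕ, Admissible g → (∀ i, g i < 4 * k) →
      c * (k / Real.log k ^ r) ≤ ((Translations k g κ).ncard : ℝ) ∧
      (∀ n ∈ Translations k g κ, ∀ i, (2 * k - 1) ^ 2 < n + g i ∧ n + g i < (2 * k + 1) ^ 2 ∧
        (n + g i).primeFactorsList.length ≤ R) ∧
      ∀ S ⊆ Translations k g κ,
        ({n ∈ S | ¬ InProgression (t + 1) (Real.log k ^ B) S n}.ncard : ℝ) ≤
          ε * ((Translations k g κ).ncard : ℝ) := by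
  obtain ⟨κ, c, hκ0, hκ1, hc, H⟩ := formsU r
  obtain ⟨R, hR⟩ := exists_nat_gt (((2 : ℕ) : ℝ) / κ)
  refine ⟨κ, c, R, hκ0, hc, ?_⟩
  intro t ε hε
  obtain ⟨B, N₀, h1⟩ := H t ε hε
  refine ⟨B, max N₀ 4, ?_⟩
  intro k hk g hg hgk
  have hk4 : 4 ≤ k := (le_max_right _ _).trans hk
  have h2 := h1 k (4 * k) ((le_max_left _ _).trans hk) (by omega) (by
      rw [sq]
      exact Nat.mul_le_mul_right _ hk4) (Fin r) (fun _ => 1)
    (fun i => (((2 * k - 1) ^ 2 + g i : ℕ) : ℤ)) (Fintype.card_fin r) (fun _ => Or.inl rfl)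
    (adm k g hg)
  set W := RU (fun _ : Fin r => 1) (fun i => (((2 * k - 1) ^ 2 + g i : ℕ) : ℤ)) (4 * k)
        (((4 * k : ℕ) : ℝ) ^ κ) with hW
  have hWfin : W.Finite := by
    apply Set.Finite.subset (Set.finite_Icc 0 (4 * k))
    intro m hm
    exact ⟨Nat.zero_le _, hm.2.1⟩
  have hinj : Function.Injective (fun m : ℕ => (2 * k - 1) ^ 2 + m) := by
    intro x y hxy
    have : (2 * k - 1) ^ 2 + x = (2 * k - 1) ^ 2 + y := hxy
    omega
  have hcard : (Translations k g κ).ncard = W.ncard := by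
    rw [image_eq, Set.ncard_image_of_injective _ hinj]
  rw [hcard]
  refine ⟨h2.1, ?_, ?_⟩
  · intro n hn i
    have h3 := hn.1
    have h4 := hn.2.1
    have h5 := hgk i
    obtain ⟨j, hj⟩ : ∃ j, k = j + 1 := ⟨k - 1, by omega⟩
    have e1 : 2 * k - 1 = 2 * j + 1 := by omega
    have e2 : 2 * k + 1 = 2 * j + 3 := by omega
    have e3 : (2 * k + 1) ^ 2 = (2 * k - 1) ^ 2 + 8 * k := by
      rw [e1, e2, hj]
      ring
    have hlt : n + g i < (2 * k + 1) ^ 2 := by omega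
    refine ⟨by omega, hlt, ?_⟩
    apply len_of hκ0 (X := 4 * k) (C := 2) (by omega) (by omega) _ hR
      (fun p hp hd => hn.2.2 i p hp hd)
    calc n + g i ≤ (2 * k + 1) ^ 2 := hlt.le
      _ ≤ (4 * k) ^ 2 := Nat.pow_le_pow_left (by omega) 2
  · intro S hS
    -- the translated set
    obtain ⟨T, hT⟩ : ∃ T : Set ℕ, T = {m | (2 * k - 1) ^ 2 + m ∈ S} := ⟨_, rfl⟩
    have hTW : T ⊆ W := by
      intro m hm
      rw [hT] at hm
      have h3 := hS hm
      rw [image_eq] at h3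
      obtain ⟨m', hm', he⟩ := h3
      have : m' = m := hinj he
      rw [← this]
      exact hm'
    have h3 := h2.2 T hTW
    refine le_trans ?_ h3
    rw [Nat.cast_le]
    have h4 : {n ∈ S | ¬ InProgression (t + 1) (Real.log k ^ B) S n} ⊆
        (fun m => (2 * k - 1) ^ 2 + m) '' {m ∈ T | ¬ InP (t + 1) (Real.log k ^ B) T m} := by
      rintro n ⟨hnS, hn⟩
      have h5 := hS hnS
      refine ⟨n - (2 * k - 1) ^ 2, ⟨?_, ?_⟩, ?_⟩
      · rw [hT]
        show (2 * k - 1) ^ 2 + (n - (2 * k - 1) ^ 2) ∈ S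
        have : (2 * k - 1) ^ 2 + (n - (2 * k - 1) ^ 2) = n := by
          have := h5.1
          omega
        rw [this]
        exact hnS
      · rintro ⟨a, d, i1, i2, i3, j, hj, i4⟩
        apply hn
        refine ⟨(2 * k - 1) ^ 2 + a, d, i1, i2, ?_, j, hj, ?_⟩
        · intro l hl
          have := i3 l hl
          rw [hT] at this
          have h6 : (2 * k - 1) ^ 2 + (a + l * d) ∈ S := this
          rw [← add_assoc] at h6
          exact h6
        · have := h5.1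
          omega
      · show (2 * k - 1) ^ 2 + (n - (2 * k - 1) ^ 2) = n
        have := h5.1
        omega
    have hTfin : {m ∈ T | ¬ InP (t + 1) (Real.log k ^ B) T m}.Finite :=
      hWfin.subset (fun m hm => hTW hm.1)
    calc {n ∈ S | ¬ InProgression (t + 1) (Real.log k ^ B) S n}.ncard
        ≤ ((fun m => (2 * k - 1) ^ 2 + m) '' {m ∈ T | ¬ InP (t + 1) (Real.log k ^ B) T m}).ncard :=
          Set.ncard_le_ncard h4 (hTfin.image _)
      _ = {m ∈ T | ¬ InP (t + 1) (Real.log k ^ B) T m}.ncard :=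
          Set.ncard_image_of_injective _ hinj

end Pool.Agent.Results.MP_5f6ee5_nt.PatternsInEveryInterval
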