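import Pool.Agent.Y816.PD.UniK

set_option autoImplicit false

/-!
# Almost prime tuples of all shapes with restricted digits between consecutive odd squares

For every large `n` and EVERY admissible `H ⊆ [0, 4 n]` with at most `k` elements (for instance `H = {0, g}` for
all even `g ≤ 4 n`) the `m` for which all `m + h`, `h ∈ H`, are almost primes between the consecutive odd squares
`(2 n - 1) ^ 2` and `(2 n + 1) ^ 2`, and for which the `i`-th digit of `m` in base `b` belongs to an arbitrary set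
`A i` for all `i < K`, are considered; `K` is the integer part of `log_b (4 n / 3)`.
-/

namespace Pool.Agent.Results.MP_5f6ee5_nt.RestrictedDigits

open Finset Filter
open Pool.Agent.Y816.PD (NA DC AU PT)

/-- The `m` with `(2 n - 1) ^ 2 < m` and `m + 4 n < (2 n + 1) ^ 2`. -/
def Low (n : ℕ) : Set ℕ := {m | (2 * n - 1) ^ 2 < m ∧ m + 4 * n < (2 * n + 1) ^ 2}

open Classical in
/-- The product over the primes `p ≤ x` of `1 - ω(p) / p`, with `ω(p)` the number of the `m < p` for which `p`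
divides some `m + h`, `h ∈ H`. -/
noncomputable def W (H : Finset ℕ) (x : ℕ) : ℝ := ∏ p ∈ (Icc 1 x).filter Nat.Prime,
  (1 - (((range p).filter (fun m : ℕ => ∃ h ∈ H, p ∣ m + h)).card : ℝ) / p)

lemma W_eq (H : Finset ℕ) (x : ℕ) : Pool.Agent.Y816.PD.WG (Pool.Agent.Y816.PD.TP H 0) x = W H x := by
  classical
  unfold Pool.Agent.Y816.PD.WG W
  apply prod_congr rfl
  intro p hp
  rw [mem_filter] at hp
  congr 3
  congr 1
  ext m
  rw [mem_filter, mem_filter, Pool.Agent.Y816.PD.TP_dvd H 0 m hp.2]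
  simp only [zero_add]

lemma sq_eq {n : ℕ} (hn : 1 ≤ n) : (2 * n - 1) ^ 2 + 8 * n = (2 * n + 1) ^ 2 := by
  obtain ⟨t, rfl⟩ : ∃ t, n = t + 1 := ⟨n - 1, by omega⟩
  have : 2 * (t + 1) - 1 = 2 * t + 1 := by omega
  rw [this]
  ring

/-- **Almost prime tuples of all shapes with restricted digits between consecutive odd squares.** -/
theorem result (k : ℕ) (hk : 1 ≤ k) :
    ∃ c : ℝ, 0 < c ∧ ∃ r₀ : ℕ, 2 ≤ r₀ ∧ ∀ r : ℕ, r₀ ≤ r → ∀ b : ℕ, 2 ≤ b → ∃ κ C : ℝ, 0 < κ ∧ 0 < C ∧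
      ∀ᶠ n : ℕ in atTop, ∀ H : Finset ℕ, H.card ≤ k → (∀ h ∈ H, h ≤ 4 * n) →
        (∀ p : ℕ, p.Prime → ∃ m : ℕ, ∀ h ∈ H, ¬ p ∣ m + h) → ∀ K : ℕ, K = Nat.log b (4 * n / 3) →
        ∀ A : ℕ → Finset ℕ, (∀ i < K, A i ⊆ range b) → (b : ℝ) ^ K ≤ Real.exp (c * K) * NA K A →
        ((∃ d ∈ A 0, ∀ h ∈ H, (d + h).Coprime b) →
          κ * NA K A * W H (b ^ K) ≤ DC b K A (AU H (Low n) r (b ^ K))) ∧
        (DC b K A (PT H (Low n)) : ℝ) ≤ C * NA K A * W H (b ^ K) := by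
  obtain ⟨c, hc, r₀, hr₀, h⟩ := Pool.Agent.Y816.PD.uni_setU k hk 8
  refine ⟨c, hc, r₀, hr₀, fun r hr b hb => ?_⟩
  obtain ⟨κ, C, hκ, hC, h1⟩ := h r hr b hb (3 * b)
  refine ⟨κ, C, hκ, hC, ?_⟩
  obtain ⟨K0, hK0⟩ := eventually_atTop.1 h1
  filter_upwards [eventually_ge_atTop (3 * b ^ (K0 + 1))] with n hn H hHk hHn hH K hK A hA hprod
  have hb0 : 0 < b := by omega
  have hn1 : 1 ≤ n := by
    have : 0 < b ^ (K0 + 1) := by positivity
    omega
  obtain ⟨hKK, hb1, hb2⟩ := Pool.Agent.Y816.PD.log_three hb (K0 + 1) (by omega : 3 * b ^ (K0 + 1) ≤ 4 * n) hK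
  have e1 : 4 * n ≤ b ^ (4 * K) := by
    calc 4 * n ≤ 3 * b * b ^ K := hb2
      _ ≤ b ^ 2 * b * b ^ K := by
          apply Nat.mul_le_mul_right
          apply Nat.mul_le_mul_right
          nlinarith
      _ = b ^ (K + 3) := by ring
      _ ≤ b ^ (4 * K) := Nat.pow_le_pow_right hb0 (by omega)
  have e2 : (2 * n - 1) ^ 2 ≤ b ^ (8 * K) := by
    calc (2 * n - 1) ^ 2 ≤ (4 * n) ^ 2 := Nat.pow_le_pow_left (by omega) 2
      _ ≤ (b ^ (4 * K)) ^ 2 := Nat.pow_le_pow_left e1 2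
      _ = b ^ (8 * K) := by rw [← pow_mul]; congr 1; ring
  have e3 : ∀ h ∈ H, h ≤ b ^ (8 * K) := fun h hh =>
    ((hHn h hh).trans e1).trans (Nat.pow_le_pow_right hb0 (by omega))
  have h5 := sq_eq hn1
  have h2 := hK0 K (by omega) H hHk hH e3 (Low n) ((2 * n - 1) ^ 2) (4 * n) (4 * n) hb1 le_rfl hb2 e2
    (fun m h1 h2 => ⟨h1, by omega⟩) (fun m hm => ⟨hm.1, by have := hm.2; omega⟩) A hA hprod
  rw [W_eq] at h2
  exact h2

end Pool.Agent.Results.MP_5f6ee5_nt.RestrictedDigits
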